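import Mathlib
import Pool.Agent.Q16.SQ.Stm3

/-!
# Project SQ (helper16), job C6
-/

set_option autoImplicit false

noncomputable section

namespace Pool.Agent.Q40.SQ

open Pool.Agent.Helper549.Tri Q16.SQ
open scoped RealInnerProductSpace

lemma range3 (A B C : E2) : Set.range ![A, B, C] = {A, B, C} := by
  ext x
  simp only [Set.mem_range, Fin.exists_fin_succ, Set.mem_insert_iff, Set.mem_singleton_iff,
    Matrix.cons_val_zero, Matrix.cons_val_succ, IsEmpty.exists_iff, or_false]
  tauto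

lemma tri_rot (A B C : E2) : TriOf A B C = TriOf B C A := by
  unfold TriOf TriSet
  rw [range3, range3]
  congr 1
  ext x
  simp only [Set.mem_insert_iff, Set.mem_singleton_iff]
  tauto

lemma tri_swap (A B C : E2) : TriOf A B C = TriOf A C B := by
  unfold TriOf TriSet
  rw [range3, range3]
  congr 1
  ext x
  simp only [Set.mem_insert_iff, Set.mem_singleton_iff]
  tauto

lemma ind_rot {A B C : E2} (h : AffineIndependent ℝ ![A, B, C]) :
    AffineIndependent ℝ ![B, C, A] := by
  have h1 := h.comp_embedding (⟨![1, 2, 0], by decide⟩ : Fin 3 ↪ Fin 3)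
  have e : (![A, B, C] : Fin 3 → E2) ∘ (⟨![1, 2, 0], by decide⟩ : Fin 3 ↪ Fin 3) = ![B, C, A] := by
    funext i
    fin_cases i <;> rfl
  rwa [e] at h1

lemma ind_swap {A B C : E2} (h : AffineIndependent ℝ ![A, B, C]) :
    AffineIndependent ℝ ![A, C, B] := by
  have h1 := h.comp_embedding (⟨![0, 2, 1], by decide⟩ : Fin 3 ↪ Fin 3)
  have e : (![A, B, C] : Fin 3 → E2) ∘ (⟨![0, 2, 1], by decide⟩ : Fin 3 ↪ Fin 3) = ![A, C, B] := by
    funext i
    fin_cases i <;> rfl
  rwa [e] at h1

lemma tri_reg {A B C : E2} (h : AffineIndependent ℝ ![A, B, C]) :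
    TriOf A B C ⊆ closure (interior (TriOf A B C)) := by
  have hne : (interior (TriOf A B C)).Nonempty := by
    unfold TriOf TriSet
    rw [interior_convexHull_nonempty_iff_affineSpan_eq_top]
    rw [h.affineSpan_eq_top_iff_card_eq_finrank_add_one]
    simp
  have hc : Convex ℝ (TriOf A B C) := convex_convexHull ℝ _
  rw [hc.closure_interior_eq_closure_of_nonempty_interior hne]
  exact subset_closure

lemma dis_reg {X Y : Set E2} (h : Disjoint (interior X) (interior Y))
    (hY : Y ⊆ closure (interior Y)) : Disjoint (interior X) Y :=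
  (h.closure_right isOpen_interior).mono_right hY

lemma eq_of_sq {x y : ℝ} (hx : 0 ≤ x) (hy : 0 ≤ y) (h : x ^ 2 = y ^ 2) : x = y :=
  (pow_left_inj₀ hx hy two_ne_zero).1 h

theorem t_C6 (h1 : S_EQU) (h2 : S_GLUE) (h3 : S_TRIK) (h4 : S_STAR) (h5 : S_SPLIT) : S_C6 := by
  intro e a b c nu he ha hb hc hnu habc r hr A B C hind hAB hBC hAC
  have ha' : (0 : ℝ) < a := by exact_mod_cast ha
  have hb' : (0 : ℝ) < b := by exact_mod_cast hb
  have hc' : (0 : ℝ) < c := by exact_mod_cast hc
  have hnu' : (0 : ℝ) < nu := by exact_mod_cast hnu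
  have habc' : (c : ℝ) ^ 2 = a ^ 2 + a * b + b ^ 2 := by exact_mod_cast habc
  have hr0 : 0 < r := by rw [hr]; positivity
  have h2a : (0 : ℝ) < 2 * a + b := by positivity
  have h2b : (0 : ℝ) < a + 2 * b := by positivity
  -- the vectors
  obtain ⟨p, hp⟩ : ∃ p : E2, p = A - C := ⟨_, rfl⟩
  obtain ⟨q, hq⟩ : ∃ q : E2, q = B - C := ⟨_, rfl⟩
  have hA : A = C + p := by rw [hp]; abel
  have hB : B = C + q := by rw [hq]; abel
  have hpn : ‖p‖ = e * (r * (b * (2 * a + b))) := by rw [hp, ← dist_eq_norm, hAC]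
  have hqn : ‖q‖ = e * (r * (a * (a + 2 * b))) := by rw [hq, ← dist_eq_norm, hBC]
  have hpq : ‖p - q‖ = e * (r * c ^ 2) := by
    rw [← hAB, dist_eq_norm, hA, hB]
    congr 1
    abel
  have hin : ⟪p, q⟫ = (e * r) ^ 2 * (b * (2 * a + b)) * (a * (a + 2 * b)) / 2 := by
    have h6 := norm_sub_sq_real p q
    rw [hpn, hqn, hpq] at h6
    have h7 : ((c : ℝ) ^ 2) ^ 2 = (a ^ 2 + a * b + b ^ 2) ^ 2 := by rw [habc']
    linear_combination (1 / 2 : ℝ) * h6 - (1 / 2 : ℝ) * (e * r) ^ 2 * h7
  have key : ∀ x y : ℝ, ‖x • p + y • q‖ ^ 2 = (e * r) ^ 2 * ((x * (b * (2 * a + b))) ^ 2 +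
      (x * (b * (2 * a + b))) * (y * (a * (a + 2 * b))) + (y * (a * (a + 2 * b))) ^ 2) := by
    intro x y
    rw [norm_add_sq_real, norm_smul, norm_smul, mul_pow, mul_pow, Real.norm_eq_abs,
      Real.norm_eq_abs, sq_abs, sq_abs, hpn, hqn, real_inner_smul_left, real_inner_smul_right, hin]
    ring
  -- the points
  obtain ⟨D, hD⟩ : ∃ D : E2, D = AffineMap.lineMap A C ((b : ℝ) / (2 * a + b)) := ⟨_, rfl⟩
  obtain ⟨E, hE⟩ : ∃ E : E2, E = AffineMap.lineMap B C ((a : ℝ) / (a + 2 * b)) := ⟨_, rfl⟩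
  obtain ⟨I, hI⟩ : ∃ I : E2, I = AffineMap.lineMap D E (1 / 2 : ℝ) := ⟨_, rfl⟩
  have hD2 : D = C + (2 * a / (2 * a + b) : ℝ) • p := by
    rw [hD, AffineMap.lineMap_apply_module, hA]
    have e1 : (2 * a / (2 * a + b) : ℝ) = 1 - b / (2 * a + b) := by field_simp; ring
    rw [e1]
    module
  have hE2 : E = C + (2 * b / (a + 2 * b) : ℝ) • q := by
    rw [hE, AffineMap.lineMap_apply_module, hB]
    have e1 : (2 * b / (a + 2 * b) : ℝ) = 1 - a / (a + 2 * b) := by field_simp; ring
    rw [e1]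
    module
  obtain ⟨s, hs⟩ : ∃ s : ℝ, s = a / (2 * a + b) := ⟨_, rfl⟩
  obtain ⟨t, ht⟩ : ∃ t : ℝ, t = b / (a + 2 * b) := ⟨_, rfl⟩
  have hs1 : s * (2 * a + b) = a := by rw [hs]; field_simp
  have ht1 : t * (a + 2 * b) = b := by rw [ht]; field_simp
  have hD3 : D = C + (2 * s) • p := by
    rw [hD2, hs]
    congr 2
    ring
  have hE3 : E = C + (2 * t) • q := by
    rw [hE2, ht]
    congr 2
    ring
  have hI3 : I = C + s • p + t • q := by
    rw [hI, AffineMap.lineMap_apply_module, hD3, hE3]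
    module
  have hs0 : 0 < s := by rw [hs]; positivity
  have ht0 : 0 < t := by rw [ht]; positivity
  have hst : 0 < 1 - s - t := by
    have e1 : s < 1 / 2 := by rw [hs, div_lt_div_iff₀ h2a two_pos]; linarith
    have e2 : t < 1 / 2 := by rw [ht, div_lt_div_iff₀ h2b two_pos]; linarith
    linarith
  -- the distances
  have dAI : dist A I = e * r * (b * c) := by
    refine eq_of_sq dist_nonneg (by positivity) ?_
    have e1 : A - I = (1 - s) • p + (-t) • q := by rw [hA, hI3]; module
    rw [dist_eq_norm, e1, key]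
    have e2 : (1 - s) * (b * (2 * a + b)) = b * (a + b) := by linear_combination (-(b : ℝ)) * hs1
    have e3 : (-t) * (a * (a + 2 * b)) = -(a * b) := by linear_combination (-(a : ℝ)) * ht1
    rw [e2, e3]
    linear_combination (-((e * r) ^ 2 * (b : ℝ) ^ 2)) * habc'
  have dBI : dist B I = e * r * (a * c) := by
    refine eq_of_sq dist_nonneg (by positivity) ?_
    have e1 : B - I = (-s) • p + (1 - t) • q := by rw [hB, hI3]; module
    rw [dist_eq_norm, e1, key]
    have e2 : (-s) * (b * (2 * a + b)) = -(a * b) := by linear_combination (-(b : ℝ)) * hs1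
    have e3 : (1 - t) * (a * (a + 2 * b)) = a * (a + b) := by linear_combination (-(a : ℝ)) * ht1
    rw [e2, e3]
    linear_combination (-((e * r) ^ 2 * (a : ℝ) ^ 2)) * habc'
  have dDI : dist D I = e * r * (a * b) := by
    refine eq_of_sq dist_nonneg (by positivity) ?_
    have e1 : D - I = s • p + (-t) • q := by rw [hD3, hI3]; module
    rw [dist_eq_norm, e1, key]
    have e2 : s * (b * (2 * a + b)) = a * b := by linear_combination (b : ℝ) * hs1
    have e3 : (-t) * (a * (a + 2 * b)) = -(a * b) := by linear_combination (-(a : ℝ)) * ht1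
    rw [e2, e3]
    ring
  have dEI : dist E I = e * r * (a * b) := by
    refine eq_of_sq dist_nonneg (by positivity) ?_
    have e1 : E - I = (-s) • p + t • q := by rw [hE3, hI3]; module
    rw [dist_eq_norm, e1, key]
    have e2 : (-s) * (b * (2 * a + b)) = -(a * b) := by linear_combination (-(b : ℝ)) * hs1
    have e3 : t * (a * (a + 2 * b)) = a * b := by linear_combination (a : ℝ) * ht1
    rw [e2, e3]
    ring
  have dDE : dist D E = e * r * (2 * (a * b)) := by
    refine eq_of_sq dist_nonneg (by positivity) ?_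
    have e1 : D - E = (2 * s) • p + (-(2 * t)) • q := by rw [hD3, hE3]; module
    rw [dist_eq_norm, e1, key]
    have e2 : (2 * s) * (b * (2 * a + b)) = 2 * (a * b) := by
      linear_combination (2 * b : ℝ) * hs1
    have e3 : (-(2 * t)) * (a * (a + 2 * b)) = -(2 * (a * b)) := by
      linear_combination (-(2 * a : ℝ)) * ht1
    rw [e2, e3]
    ring
  have dAD : dist A D = e * r * (b * b) := by
    have e1 : A - D = (1 - 2 * s) • p := by rw [hA, hD3]; module
    have e2 : 0 < 1 - 2 * s := by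
      have : 2 * s < 1 := by rw [hs, ← mul_div_assoc, div_lt_one h2a]; linarith
      linarith
    rw [dist_eq_norm, e1, norm_smul, Real.norm_of_nonneg e2.le, hpn]
    linear_combination (-(2 * e * r * b : ℝ)) * hs1
  have dBE : dist B E = e * r * (a * a) := by
    have e1 : B - E = (1 - 2 * t) • q := by rw [hB, hE3]; module
    have e2 : 0 < 1 - 2 * t := by
      have : 2 * t < 1 := by rw [ht, ← mul_div_assoc, div_lt_one h2b]; linarith
      linarith
    rw [dist_eq_norm, e1, norm_smul, Real.norm_of_nonneg e2.le, hqn]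
    linear_combination (-(2 * e * r * a : ℝ)) * ht1
  have dCD : dist C D = e * r * (2 * (a * b)) := by
    have e1 : D - C = (2 * s) • p := by rw [hD3]; module
    rw [dist_comm, dist_eq_norm, e1, norm_smul, Real.norm_of_nonneg (by positivity), hpn]
    linear_combination (2 * e * r * b : ℝ) * hs1
  have dCE : dist C E = e * r * (2 * (a * b)) := by
    have e1 : E - C = (2 * t) • q := by rw [hE3]; module
    rw [dist_comm, dist_eq_norm, e1, norm_smul, Real.norm_of_nonneg (by positivity), hqn]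
    linear_combination (2 * e * r * a : ℝ) * ht1
  -- the star
  obtain ⟨iABI, iBCI, iCAI, hu1, hd1, hd2⟩ := h4 A B C s t (1 - s - t) hind hs0 ht0 hst (by ring) I
    (by rw [hI3, hA, hB]; module)
  -- the splits
  have hspl : ∀ (X Y Z : E2), AffineIndependent ℝ ![X, Y, Z] → ∀ w : ℝ, 0 < w → w < 1 →
      AffineIndependent ℝ ![X, Y, AffineMap.lineMap Y Z w] ∧
      AffineIndependent ℝ ![X, Z, AffineMap.lineMap Y Z w] ∧
      TriOf X Y (AffineMap.lineMap Y Z w) ∪ TriOf X Z (AffineMap.lineMap Y Z w) = TriOf X Y Z ∧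
      Disjoint (interior (TriOf X Y (AffineMap.lineMap Y Z w)))
        (interior (TriOf X Z (AffineMap.lineMap Y Z w))) :=
    fun X Y Z hX w hw0 hw1 => h5 ![X, Y, Z] hX w hw0 hw1
  have w10 : (0 : ℝ) < b / (2 * a + b) := by positivity
  have w11 : (b : ℝ) / (2 * a + b) < 1 := by rw [div_lt_one h2a]; linarith
  have w20 : (0 : ℝ) < a / (a + 2 * b) := by positivity
  have w21 : (a : ℝ) / (a + 2 * b) < 1 := by rw [div_lt_one h2b]; linarith
  have iIAC : AffineIndependent ℝ ![I, A, C] := ind_swap (ind_rot (ind_rot iCAI))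
  have iIBC : AffineIndependent ℝ ![I, B, C] := ind_rot (ind_rot iBCI)
  obtain ⟨iIAD, iICD, hu2, hd3⟩ := hspl I A C iIAC _ w10 w11
  obtain ⟨iIBE, iICE, hu3, hd4⟩ := hspl I B C iIBC _ w20 w21
  rw [← hD] at iIAD iICD hu2 hd3
  rw [← hE] at iIBE iICE hu3 hd4
  have iBCD : AffineIndependent ℝ ![B, C, D] := by
    have h6 := (hspl B A C (ind_swap (ind_rot hind)) _ w10 w11).2.1
    rwa [← hD] at h6
  have iDCE : AffineIndependent ℝ ![D, C, E] := by
    have h6 := (hspl D B C (ind_rot (ind_rot iBCD)) _ w20 w21).2.1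
    rwa [← hE] at h6
  have iCDE : AffineIndependent ℝ ![C, D, E] := ind_swap (ind_rot iDCE)
  obtain ⟨iCDI, iCEI, hu4, hd5⟩ := hspl C D E iCDE (1 / 2) (by norm_num) (by norm_num)
  rw [← hI] at iCDI iCEI hu4 hd5
  -- the pieces
  have eIAC : TriOf C A I = TriOf I A C := ((tri_swap I A C).trans (tri_rot I C A)).symm
  have eIBC : TriOf B C I = TriOf I B C := (tri_rot I B C).symm
  have eICD : TriOf C D I = TriOf I C D := (tri_rot I C D).symm
  have eICE : TriOf C E I = TriOf I C E := (tri_rot I C E).symm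
  obtain ⟨N, hN⟩ : ∃ N : ℕ, N = 3 * (a + b) * b * nu := ⟨_, rfl⟩
  have hN0 : 0 < N := by rw [hN]; positivity
  have hNr : (N : ℝ) = r := by rw [hN, hr]; push_cast; ring
  have tABI : Tlb (e * a) (e * b) (e * c) (TriOf A B I) := by
    refine h3 (e * a) (e * b) (e * c) (N * c) (by positivity) A B I iABI (Or.inl ⟨?_, ?_, ?_⟩)
    · rw [dBI]; push_cast; rw [hNr]; ring
    · rw [dAI]; push_cast; rw [hNr]; ring
    · rw [hAB]; push_cast; rw [hNr]; ring
  have tIAD : Tlb (e * a) (e * b) (e * c) (TriOf I A D) := by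
    refine h3 (e * a) (e * b) (e * c) (N * b) (by positivity) I A D iIAD
      (Or.inr (Or.inr (Or.inl ⟨?_, ?_, ?_⟩)))
    · rw [dAD]; push_cast; rw [hNr]; ring
    · rw [dist_comm, dDI]; push_cast; rw [hNr]; ring
    · rw [dist_comm, dAI]; push_cast; rw [hNr]; ring
  have tIBE : Tlb (e * a) (e * b) (e * c) (TriOf I B E) := by
    refine h3 (e * a) (e * b) (e * c) (N * a) (by positivity) I B E iIBE (Or.inl ⟨?_, ?_, ?_⟩)
    · rw [dBE]; push_cast; rw [hNr]; ring
    · rw [dist_comm, dEI]; push_cast; rw [hNr]; ring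
    · rw [dist_comm, dBI]; push_cast; rw [hNr]; ring
  have tCDE : Tlb (e * a) (e * b) (e * c) (TriOf C D E) := by
    have eL : e * r * (2 * (a * b)) = e * (3 * (a + b) * ((2 * nu : ℕ) : ℝ) * a * b ^ 2) := by
      rw [hr]; push_cast; ring
    refine h1 e a b c (2 * nu) he ha hb hc (by positivity) habc C D E ?_ ?_ ?_
    · rw [dDE, eL]
    · rw [dCE, eL]
    · rw [dCD, eL]
  -- regularity and disjointness
  have gBCI := tri_reg iBCI
  have gCAI := tri_reg iCAI
  have gICD := tri_reg iICD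
  have gICE := tri_reg iICE
  have sIAD : interior (TriOf I A D) ⊆ interior (TriOf C A I) := by
    rw [eIAC, ← hu2]
    exact interior_mono Set.subset_union_left
  have sICD : TriOf I C D ⊆ TriOf C A I := by
    rw [eIAC, ← hu2]
    exact Set.subset_union_right
  have sIBE : interior (TriOf I B E) ⊆ interior (TriOf B C I) := by
    rw [eIBC, ← hu3]
    exact interior_mono Set.subset_union_left
  have sIBE' : TriOf I B E ⊆ TriOf B C I := by
    rw [eIBC, ← hu3]
    exact Set.subset_union_left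
  have sICE : TriOf I C E ⊆ TriOf B C I := by
    rw [eIBC, ← hu3]
    exact Set.subset_union_right
  have eCDE : TriOf C D E = TriOf I C D ∪ TriOf I C E := by rw [← hu4, eICD, eICE]
  have dd1 : Disjoint (interior (TriOf B C I)) (TriOf C A I) := dis_reg hd2 gCAI
  have dd2 : Disjoint (interior (TriOf C A I)) (TriOf B C I) := dis_reg hd2.symm gBCI
  have dd3 : Disjoint (interior (TriOf I B E)) (TriOf C D E) := by
    rw [eCDE, Set.disjoint_union_right]
    exact ⟨(dd1.mono_left sIBE).mono_right sICD, dis_reg hd4 gICE⟩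
  have dd4 : Disjoint (interior (TriOf I A D)) (TriOf I B E ∪ TriOf C D E) := by
    rw [eCDE, Set.disjoint_union_right, Set.disjoint_union_right]
    exact ⟨(dd2.mono_left sIAD).mono_right sIBE', dis_reg hd3 gICD,
      (dd2.mono_left sIAD).mono_right sICE⟩
  have g1 : Tlb (e * a) (e * b) (e * c) (TriOf I B E ∪ TriOf C D E) :=
    h2 _ _ _ _ _ tIBE tCDE (dd3.mono_right interior_subset)
  have g2 : Tlb (e * a) (e * b) (e * c) (TriOf I A D ∪ (TriOf I B E ∪ TriOf C D E)) :=
    h2 _ _ _ _ _ tIAD g1 (dd4.mono_right interior_subset)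
  have e2 : TriOf I A D ∪ (TriOf I B E ∪ TriOf C D E) = TriOf B C I ∪ TriOf C A I := by
    rw [eIAC, eIBC, ← hu2, ← hu3, eCDE]
    ext x
    simp only [Set.mem_union]
    tauto
  rw [e2] at g2
  rw [hu1]
  exact h2 _ _ _ _ _ tABI g2 hd1

end Pool.Agent.Q40.SQ
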