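import Mathlib
import Pool.Agent.Q2.TN.Stm

/-! Project TN, job B1: a finite group with a Sylow `p`-subgroup which controls its own fusion is
`p`-nilpotent. -/

set_option autoImplicit false

namespace Q40.TN_B1

open Q2.TN
open Subgroup
open scoped commutatorElement

/-- `x ↦ x ^ m` modulo the commutator subgroup. -/
def pm (m : ℕ) (N : Type) [Group N] : N →* Abelianization N :=
  (powMonoidHom m).comp Abelianization.of

theorem mem_ker_pm {m : ℕ} {N : Type} [Group N] {x : N} :
    x ∈ (pm m N).ker ↔ x ^ m ∈ _root_.commutator N := by
  rw [MonoidHom.mem_ker]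
  have h : pm m N x = Abelianization.of (x ^ m) := by simp [pm]
  rw [h, ← MonoidHom.mem_ker, Abelianization.ker_of]

theorem ker_char (m : ℕ) (N : Type) [Group N] : ((pm m N).ker).Characteristic := by
  rw [characteristic_iff_comap_le]
  intro φ x hx
  rw [mem_comap] at hx
  rw [mem_ker_pm] at hx ⊢
  have h1 : (φ.toMonoidHom x) ^ m = φ (x ^ m) := by simp
  rw [h1] at hx
  have h2 := (characteristic_iff_comap_eq.1 (inferInstance : (_root_.commutator N).Characteristic)) φ
  rw [← h2]
  exact hx

theorem b1 : S_B1 := by
  intro p hp G _ _ P hP hfus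
  have : Fact p.Prime := ⟨hp⟩
  have main : ∀ n : ℕ, ∀ N : Subgroup G, Nat.card N = n → N.Normal → (∃ k : ℕ, N.index = p ^ k) →
      IsPNil p G := by
    intro n
    induction n using Nat.strong_induction_on with
    | _ n ih =>
      intro N hn hN hk
      by_cases hcop : (Nat.card N).Coprime p
      · exact ⟨N, hN, hcop, hk⟩
      obtain ⟨k, hk⟩ := hk
      -- the order of the abelianization
      obtain ⟨a, m, hm, ham⟩ := Nat.exists_eq_pow_mul_and_not_dvd
        (Nat.card_pos (α := Abelianization N)).ne' p hp.ne_one
      set K : Subgroup N := (pm m N).ker with hK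
      have hKc : K.Characteristic := ker_char m N
      set K' : Subgroup G := K.map N.subtype with hK'
      have hK'n : K'.Normal := by
        rw [hK']
        infer_instance
      have hKi : ∃ j, K.index = p ^ j := by
        rw [hK, index_ker]
        have hpg : IsPGroup p (pm m N).range := by
          intro y
          refine ⟨a, ?_⟩
          obtain ⟨y, x, rfl⟩ := y
          apply Subtype.ext
          have h1 : pm m N x = (Abelianization.of x) ^ m := by simp [pm]
          simp only [SubmonoidClass.coe_pow, OneMemClass.coe_one]
          rw [h1, ← pow_mul, mul_comm m, ← ham]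
          exact pow_card_eq_one'
        exact (IsPGroup.iff_card).1 hpg
      obtain ⟨j, hj⟩ := hKi
      have hK'i : K'.index = p ^ (j + k) := by
        rw [hK', index_map_subtype, hj, hk, pow_add]
      by_cases hlt : Nat.card K' < n
      · exact ih _ hlt K' rfl hK'n ⟨_, hK'i⟩
      exfalso
      have hKtop : K = ⊤ := by
        have h1 : Nat.card K' = Nat.card K := Nat.card_congr (K.equivMapOfInjective _ N.subtype_injective).symm.toEquiv
        have h2 : Nat.card K ≤ Nat.card N := Nat.card_le_card_of_injective _ K.subtype_injective
        apply eq_top_of_card_eq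
        omega
      -- the Sylow subgroup of `N`
      have hS1 : IsPGroup p (P.subgroupOf N) := hP.1.comap_of_injective _ N.subtype_injective
      have hS2 : ¬ p ∣ (P.subgroupOf N).index := by
        intro h
        apply hP.2
        have h1 : (P.subgroupOf N).index = P.relIndex N := rfl
        have h2 : P.relIndex (P ⊔ N) = P.relIndex N := by
          have e1 : P.relIndex N * N.relIndex P = P.relIndex N * N.relIndex P := rfl
          have h3 : (P ⊓ N).relIndex (P ⊔ N) = (P ⊓ N).relIndex N * N.relIndex (P ⊔ N) :=
            (relIndex_mul_relIndex _ _ _ inf_le_right le_sup_right).symm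
          have h4 : (P ⊓ N).relIndex (P ⊔ N) = (P ⊓ N).relIndex P * P.relIndex (P ⊔ N) :=
            (relIndex_mul_relIndex _ _ _ inf_le_left le_sup_left).symm
          have h5 : N.relIndex (P ⊔ N) = N.relIndex P := relIndex_sup_right P N
          have h6 : (P ⊓ N).relIndex N = P.relIndex N := inf_relIndex_right P N
          have h7 : (P ⊓ N).relIndex P = N.relIndex P := by rw [inf_comm, inf_relIndex_right]
          rw [h3, h5, h6, h7] at h4
          have h8 : N.relIndex P ≠ 0 := (N.subgroupOf P).index_ne_zero_of_finite
          have h9 : P.relIndex N * N.relIndex P = P.relIndex (P ⊔ N) * N.relIndex P := by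
            rw [h4, mul_comm]
          exact (Nat.eq_of_mul_eq_mul_right (Nat.pos_of_ne_zero h8) h9).symm
        rw [h1, ← h2] at h
        exact h.trans (relIndex_dvd_index_of_le le_sup_left)
      let S : Sylow p N := hS1.toSylow hS2
      have hSmem : ∀ x : N, x ∈ (S : Subgroup N) ↔ (x : G) ∈ P := fun x => Iff.rfl
      -- `S` is contained in the commutator subgroup of `N`
      have hSc : (S : Subgroup N) ≤ _root_.commutator N := by
        intro x hx
        have h1 : x ∈ K := by rw [hKtop]; trivial
        rw [hK, mem_ker_pm] at h1
        obtain ⟨b, hb⟩ := S.2 ⟨x, hx⟩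
        have hb' : x ^ p ^ b = 1 := by
          have := congrArg Subtype.val hb
          simpa using this
        have hc : Nat.Coprime m (p ^ b) :=
          ((Nat.Prime.coprime_iff_not_dvd hp).2 hm).symm.pow_right b
        have h2 : x = (x ^ m) ^ (Nat.gcdA m (p ^ b)) * (x ^ (p ^ b)) ^ (Nat.gcdB m (p ^ b)) := by
          rw [← zpow_natCast, ← zpow_natCast, ← zpow_mul, ← zpow_mul, ← zpow_add,
            ← Nat.gcd_eq_gcd_ab, hc.gcd_eq_one]
          simp
        rw [hb', one_zpow, mul_one] at h2
        rw [h2]
        exact zpow_mem h1 _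
      have hfoc : (S : Subgroup N) ≤ (S : Subgroup N).focalSubgroup := by
        have := commutator_inf_eq_focalSubgroup S
        rw [← this]
        exact le_inf hSc le_rfl
      set Q : Subgroup G := P ⊓ N with hQ
      have hQP : Q ≤ ⁅Q, P⁆ := by
        intro x hx
        have h1 : (⟨x, hx.2⟩ : N) ∈ (S : Subgroup N).focalSubgroup := hfoc hx.1
        have h2 : (S : Subgroup N).focalSubgroup ≤ (⁅Q, P⁆).comap N.subtype := by
          rw [focalSubgroup_def, closure_le]
          rintro g ⟨hg, y, hy, u, rfl⟩
          have hy' : (y : G) ∈ P := hy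
          have h3 : (u : G) * (y : G)⁻¹ * (u : G)⁻¹ ∈ P := by
            have h4 : ((⁅y, u⁆ : N) : G) ∈ P := hg
            have h5 := P.mul_mem (P.inv_mem hy') h4
            have h6 : (y : G)⁻¹ * ((⁅y, u⁆ : N) : G) = (u : G) * (y : G)⁻¹ * (u : G)⁻¹ := by
              simp [commutatorElement_def]
              group
            rwa [h6] at h5
          obtain ⟨v, hv, hv2⟩ := hfus _ (P.inv_mem hy') _ h3
            (isConj_iff.2 ⟨(u : G), rfl⟩)
          have h7 : ((⁅y, u⁆ : N) : G) = ⁅(y : G), v⁆ := by
            have : ((⁅y, u⁆ : N) : G) = (y : G) * ((u : G) * (y : G)⁻¹ * (u : G)⁻¹) := by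
              simp [commutatorElement_def]
              group
            rw [this, ← hv2, commutatorElement_def]
            group
          show ((⁅y, u⁆ : N) : G) ∈ ⁅Q, P⁆
          rw [h7]
          exact commutator_mem_commutator ⟨hy', y.2⟩ hv
        exact h2 h1
      have hnil : Group.IsNilpotent P := hP.1.isNilpotent
      obtain ⟨c, hc⟩ := (isNilpotent_iff_lowerCentralSeries P).1 hnil
      have hle : ∀ i, Q ≤ P.lowerCentralSeries i := by
        intro i
        induction i with
        | zero => exact inf_le_left
        | succ i hi =>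
          rw [Subgroup.lowerCentralSeries_succ]
          exact hQP.trans (commutator_mono hi le_rfl)
      have hQbot : Q = ⊥ := by
        have := hle c
        rw [hc] at this
        exact le_bot_iff.1 this
      have hSbot : P.subgroupOf N = ⊥ := by
        rw [eq_bot_iff]
        intro x hx
        have : (x : G) ∈ Q := ⟨hx, x.2⟩
        rw [hQbot] at this
        exact Subtype.ext (mem_bot.1 this)
      rw [hSbot, index_bot] at hS2
      exact hcop ((Nat.Prime.coprime_iff_not_dvd hp).2 hS2).symm
  exact main _ ⊤ rfl inferInstance ⟨0, by simp⟩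

end Q40.TN_B1
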