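import Mathlib
import Pool.Agent.Q201.AR.Stm3

/-!
# Job AR DECOMP (project AR of helper201): every code is a Mathlib formula
-/

set_option autoImplicit false

open FirstOrder FirstOrder.Language Pool.Agent.Helper227.EN

namespace Pool.Agent.Q40.ARDecomp

open Q201.AR

theorem t_DECOMP : S_DECOMP := by
  intro c
  refine code_ind (P := fun c => ∃ φ : LA.Formula ℕ, ∀ (M : Type) [LA.Structure M] (e : ℕ → M),
    φ.Realize e ↔ Sat M c e) ?_ ?_ ?_ ?_ ?_ ?_ ?_ ?_ c
  · intro i
    refine ⟨Term.equal (Term.func (L := LA) AF.zero ![]) (Term.var i), fun M _ e => ?_⟩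
    rw [Formula.realize_equal, Sat_cz, Term.realize_func, Term.realize_var]
    rw [show (fun j : Fin 0 => Term.realize e ((![] : Fin 0 → LA.Term ℕ) j)) = ![] from
      Subsingleton.elim _ _]
  · intro i
    refine ⟨Term.equal (Term.func (L := LA) AF.one ![]) (Term.var i), fun M _ e => ?_⟩
    rw [Formula.realize_equal, Sat_co, Term.realize_func, Term.realize_var]
    rw [show (fun j : Fin 0 => Term.realize e ((![] : Fin 0 → LA.Term ℕ) j)) = ![] from
      Subsingleton.elim _ _]
  · intro i j
    refine ⟨Term.equal (Term.var i) (Term.var j), fun M _ e => ?_⟩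
    rw [Formula.realize_equal, Sat_ceq, Term.realize_var, Term.realize_var]
  · intro i j
    refine ⟨Relations.formula₂ (L := LA) AR.lt (Term.var i) (Term.var j), fun M _ e => ?_⟩
    rw [Formula.realize_rel₂, Sat_clt, Term.realize_var, Term.realize_var]
  · intro i j k
    refine ⟨Term.equal (Functions.apply₂ (L := LA) AF.add (Term.var i) (Term.var j)) (Term.var k),
      fun M _ e => ?_⟩
    rw [Formula.realize_equal, Sat_cad, Term.realize_functions_apply₂, Term.realize_var,
      Term.realize_var, Term.realize_var]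
  · intro i j k
    refine ⟨Term.equal (Functions.apply₂ (L := LA) AF.mul (Term.var i) (Term.var j)) (Term.var k),
      fun M _ e => ?_⟩
    rw [Formula.realize_equal, Sat_cml, Term.realize_functions_apply₂, Term.realize_var,
      Term.realize_var, Term.realize_var]
  · rintro a b ⟨φ, hφ⟩ ⟨ψ, hψ⟩
    refine ⟨φ.not ⊓ ψ.not, fun M _ e => ?_⟩
    rw [Formula.realize_inf, Formula.realize_not, Formula.realize_not, Sat_cnor, hφ, hψ]
  · rintro i a ⟨φ, hφ⟩
    let g : ℕ → ℕ ⊕ Fin 1 := fun j => if j = i then Sum.inr 0 else Sum.inl j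
    refine ⟨(φ.relabel g).iExs (Fin 1), fun M _ v => ?_⟩
    rw [Formula.realize_iExs, Sat_cex]
    have key : ∀ w : Fin 1 → M, (φ.relabel g).Realize (fun a => Sum.elim v w a) ↔
        Sat M a (Function.update v i (w 0)) := by
      intro w
      rw [Formula.realize_relabel, hφ]
      have : ((fun a => Sum.elim v w a) ∘ g) = Function.update v i (w 0) := by
        funext j
        by_cases hj : j = i
        · subst hj
          simp [g]
        · simp [g, hj]
      rw [this]
    constructor
    · rintro ⟨w, hw⟩
      exact ⟨w 0, (key w).1 hw⟩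
    · rintro ⟨x, hx⟩
      exact ⟨fun _ => x, (key _).2 hx⟩

end Pool.Agent.Q40.ARDecomp
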