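import Pool.Agent.Q37.GU.Stm
import Pool.Agent.W904.PG.T1

set_option autoImplicit false

open CategoryTheory CategoryTheory.Limits AlgebraicGeometry Topology
open scoped TensorProduct

namespace Pool.Agent.Q40.GU_P10

open Pool.Agent.Q37.GU Pool.Agent.W481

/-- maps out of a tensor product agree -/
theorem ext_R {A B R S : Type} [CommRing A] [CommRing B] [CommRing R] [CommRing S]
    [Algebra ℂ A] [Algebra ℂ B] [Algebra ℂ R] [Algebra ℂ S] (i : A →ₐ[ℂ] R) (j : B →ₐ[ℂ] R)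
    (h : Function.Surjective (Algebra.TensorProduct.lift i j (fun _ _ => Commute.all _ _) :
      A ⊗[ℂ] B →ₐ[ℂ] R)) (f g : R →ₐ[ℂ] S) (hi : ∀ a, f (i a) = g (i a))
    (hj : ∀ b, f (j b) = g (j b)) (x : R) : f x = g x := by
  obtain ⟨t, rfl⟩ := h x
  induction t with
  | zero => rw [map_zero, map_zero, map_zero]
  | add t s ht hs => rw [map_add, map_add, map_add, ht, hs]
  | tmul a b => rw [Algebra.TensorProduct.lift_tmul, map_mul, map_mul, hi, hj]

theorem sp_ext {A : Type} [CommRing A] [Algebra ℂ A] {φ ψ : Sp A} (h : ∀ a, φ.hom a = ψ.hom a) :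
    φ = ψ := AlgHom.ext h

/-- JOB P10 -/
theorem p10 (h6 : S_P6) (h7 : S_P7) (h8 : S_P8) (h9 : S_P9) : S_P10 := by
  intro A B R C _ _ _ _ _ _ _ _ _ _ _ _ _ _ i j hij ψ₀
  let e : A ⊗[ℂ] B ≃ₐ[ℂ] R := AlgEquiv.ofBijective _ hij
  have hei : ∀ a, e.symm (i a) = a ⊗ₜ 1 := by
    intro a
    rw [AlgEquiv.symm_apply_eq]
    change i a = Algebra.TensorProduct.lift i j (fun _ _ => Commute.all _ _) (a ⊗ₜ 1)
    rw [Algebra.TensorProduct.lift_tmul, map_one, mul_one]
  have hej : ∀ b, e.symm (j b) = 1 ⊗ₜ b := by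
    intro b
    rw [AlgEquiv.symm_apply_eq]
    change j b = Algebra.TensorProduct.lift i j (fun _ _ => Commute.all _ _) (1 ⊗ₜ b)
    rw [Algebra.TensorProduct.lift_tmul, map_one, one_mul]
  let k : R →ₐ[ℂ] C := IsScalarTower.toAlgHom ℂ R C
  let α : A →ₐ[ℂ] ℂ := (ψ₀.hom.comp k).comp i
  let β : B →ₐ[ℂ] ℂ := (ψ₀.hom.comp k).comp j
  let r1 : R →ₐ[ℂ] A := (Algebra.TensorProduct.lift (AlgHom.id ℂ A) ((Algebra.ofId ℂ A).comp β)
    (fun _ _ => Commute.all _ _)).comp (e.symm : R →ₐ[ℂ] A ⊗[ℂ] B)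
  have r1i : ∀ a, r1 (i a) = a := by
    intro a
    change Algebra.TensorProduct.lift _ _ (fun _ _ => Commute.all _ _) (e.symm (i a)) = a
    rw [hei, Algebra.TensorProduct.lift_tmul, map_one, mul_one]
    rfl
  have r1j : ∀ b, r1 (j b) = algebraMap ℂ A (β b) := by
    intro b
    change Algebra.TensorProduct.lift _ _ (fun _ _ => Commute.all _ _) (e.symm (j b)) = _
    rw [hej, Algebra.TensorProduct.lift_tmul, map_one, one_mul]
    rfl
  let r2 : R →ₐ[ℂ] B := (Algebra.TensorProduct.lift ((Algebra.ofId ℂ B).comp α) (AlgHom.id ℂ B)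
    (fun _ _ => Commute.all _ _)).comp (e.symm : R →ₐ[ℂ] A ⊗[ℂ] B)
  have r2i : ∀ a, r2 (i a) = algebraMap ℂ B (α a) := by
    intro a
    change Algebra.TensorProduct.lift _ _ (fun _ _ => Commute.all _ _) (e.symm (i a)) = _
    rw [hei, Algebra.TensorProduct.lift_tmul, map_one, mul_one]
    rfl
  have r2j : ∀ b, r2 (j b) = b := by
    intro b
    change Algebra.TensorProduct.lift _ _ (fun _ _ => Commute.all _ _) (e.symm (j b)) = b
    rw [hej, Algebra.TensorProduct.lift_tmul, map_one, one_mul]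
    rfl
  have hk : ∀ x, k x = algebraMap R C x := fun x => rfl
  obtain ⟨C1, _, _, _, _, _, _, _, m1, c1, hm1, hc1, hc1', hu1⟩ := h9 R C A r1 ψ₀ (show Sp A from α)
    (fun x => ext_R i j hij.2 (α.comp r1) (ψ₀.hom.comp k)
      (fun a => by rw [AlgHom.comp_apply, r1i]; rfl)
      (fun b => by rw [AlgHom.comp_apply, r1j, AlgHom.commutes]; rfl) x)
  obtain ⟨C2, _, _, _, _, _, _, _, m2, c2, hm2, hc2, hc2', hu2⟩ := h9 R C B r2 ψ₀ (show Sp B from β)
    (fun x => ext_R i j hij.2 (β.comp r2) (ψ₀.hom.comp k)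
      (fun a => by rw [AlgHom.comp_apply, r2i, AlgHom.commutes]; rfl)
      (fun b => by rw [AlgHom.comp_apply, r2j]; rfl) x)
  have hsm1 : Algebra.Smooth ℂ C1 := Algebra.Smooth.comp ℂ A C1
  have hsm2 : Algebra.Smooth ℂ C2 := Algebra.Smooth.comp ℂ B C2
  have hD : IsDomain (C1 ⊗[ℂ] C2) := Pool.Agent.W904.PG.dom
  have hsD' : Algebra.Smooth C1 (C1 ⊗[ℂ] C2) := inferInstance
  have hsD : Algebra.Smooth ℂ (C1 ⊗[ℂ] C2) := Algebra.Smooth.comp ℂ C1 (C1 ⊗[ℂ] C2)
  let jA : A →ₐ[ℂ] C1 := IsScalarTower.toAlgHom ℂ A C1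
  let jB : B →ₐ[ℂ] C2 := IsScalarTower.toAlgHom ℂ B C2
  let r3 : R →ₐ[ℂ] C1 ⊗[ℂ] C2 := (Algebra.TensorProduct.map jA jB).comp (e.symm : R →ₐ[ℂ] A ⊗[ℂ] B)
  have r3i : ∀ a, r3 (i a) = algebraMap A C1 a ⊗ₜ 1 := by
    intro a
    change Algebra.TensorProduct.map _ _ (e.symm (i a)) = _
    rw [hei, Algebra.TensorProduct.map_tmul, map_one]
    rfl
  have r3j : ∀ b, r3 (j b) = 1 ⊗ₜ algebraMap B C2 b := by
    intro b
    change Algebra.TensorProduct.map _ _ (e.symm (j b)) = _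
    rw [hej, Algebra.TensorProduct.map_tmul, map_one]
    rfl
  let lf : Sp C1 → Sp C2 → Sp (C1 ⊗[ℂ] C2) := fun s t =>
    Algebra.TensorProduct.lift s.hom t.hom (fun _ _ => Commute.all _ _)
  have hlf : ∀ s t x y, (lf s t).hom (x ⊗ₜ y) = s.hom x * t.hom y := fun s t x y =>
    Algebra.TensorProduct.lift_tmul s.hom t.hom (fun _ _ => Commute.all _ _) x y
  have hc1i : ∀ a, c1.hom (algebraMap A C1 a) = α a := hc1
  have hc2j : ∀ b, c2.hom (algebraMap B C2 b) = β b := hc2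
  obtain ⟨T, _, _, _, _, _, _, _, m, τ, hm, hτ, hτ', huT⟩ := h9 R C (C1 ⊗[ℂ] C2) r3 ψ₀ (lf c1 c2)
    (fun x => ext_R i j hij.2 ((lf c1 c2).hom.comp r3) (ψ₀.hom.comp k)
      (fun a => by
        rw [AlgHom.comp_apply, r3i, hlf, map_one, mul_one, hc1i]; rfl)
      (fun b => by
        rw [AlgHom.comp_apply, r3j, hlf, map_one, one_mul, hc2j]; rfl) x)
  have hsT : Algebra.Smooth ℂ T := Algebra.Smooth.comp ℂ (C1 ⊗[ℂ] C2) T
  let q : C1 ⊗[ℂ] C2 →ₐ[ℂ] T := IsScalarTower.toAlgHom ℂ (C1 ⊗[ℂ] C2) T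
  let q1 : C1 →ₐ[ℂ] T := q.comp Algebra.TensorProduct.includeLeft
  let q2 : C2 →ₐ[ℂ] T := q.comp Algebra.TensorProduct.includeRight
  have hτ1 : ∀ (τ' : Sp T), (∀ s, τ'.hom (algebraMap (C1 ⊗[ℂ] C2) T s) = (lf c1 c2).hom s) →
      ∀ c, τ'.hom (m c) = ψ₀.hom c := by
    intro τ' hτ''
    have hcov : IsCoveringMap (Sp.comap (IsScalarTower.toAlgHom ℂ R C)) := etale_covering.1
    let f : C(Sp C, Sp R) := comapC k
    let δ : C(Sp C1 × Sp C2, Sp R) := ⟨fun s => Sp.comap r3 (lf s.1 s.2),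
      (continuous_comap r3).comp (continuous_to_sp _ (by
        intro x
        induction x with
        | zero => simpa using continuous_const
        | add x y hx hy =>
          simp only [map_add]
          exact hx.add hy
        | tmul x y =>
          simp only [hlf]
          exact ((continuous_sp_eval x).comp continuous_fst).mul
            ((continuous_sp_eval y).comp continuous_snd)))⟩
    let p : C(Sp T, Sp C1 × Sp C2) := ⟨fun t => (Sp.comap q1 t, Sp.comap q2 t),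
      (continuous_comap q1).prodMk (continuous_comap q2)⟩
    have hp : ∀ t : Sp T, (∀ s, t.hom (algebraMap (C1 ⊗[ℂ] C2) T s) = (lf c1 c2).hom s) →
        p t = (c1, c2) := by
      intro t ht
      refine Prod.ext (sp_ext fun x => ?_) (sp_ext fun x => ?_)
      · change t.hom (algebraMap (C1 ⊗[ℂ] C2) T (x ⊗ₜ 1)) = _
        rw [ht, hlf, map_one, mul_one]
      · change t.hom (algebraMap (C1 ⊗[ℂ] C2) T (1 ⊗ₜ x)) = _
        rw [ht, hlf, map_one, one_mul]
    obtain ⟨γ⟩ := h6 T τ τ'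
    have key := h8 (Sp C1) (Sp C2) (Sp T) (Sp C) (Sp R) f hcov δ p (comapC m) (by
      intro w
      refine sp_ext fun x => ?_
      change w.hom (m (algebraMap R C x)) = (lf (Sp.comap q1 w) (Sp.comap q2 w)).hom (r3 x)
      rw [hm]
      refine ext_R i j hij.2 ((w.hom.comp q).comp r3)
        ((lf (Sp.comap q1 w) (Sp.comap q2 w)).hom.comp r3) ?_ ?_ x
      · intro a
        change w.hom (q (r3 (i a))) = (lf (Sp.comap q1 w) (Sp.comap q2 w)).hom (r3 (i a))
        rw [r3i, hlf, map_one, mul_one]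
        rfl
      · intro b
        change w.hom (q (r3 (j b))) = (lf (Sp.comap q1 w) (Sp.comap q2 w)).hom (r3 (j b))
        rw [r3j, hlf, map_one, one_mul]
        rfl) (comapC m1) (comapC m2) c1 c2 (by
      intro s
      refine sp_ext fun x => ?_
      change s.hom (m1 (algebraMap R C x)) = (lf s c2).hom (r3 x)
      rw [hm1]
      refine ext_R i j hij.2 ((s.hom.comp jA).comp r1) ((lf s c2).hom.comp r3) ?_ ?_ x
      · intro a
        change s.hom (jA (r1 (i a))) = (lf s c2).hom (r3 (i a))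
        rw [r3i, hlf, r1i, map_one, mul_one]
        rfl
      · intro b
        change s.hom (jA (r1 (j b))) = (lf s c2).hom (r3 (j b))
        rw [r3j, hlf, r1j, map_one, one_mul, hc2j, AlgHom.commutes, AlgHom.commutes]
        rfl) (by
      intro s
      refine sp_ext fun x => ?_
      change s.hom (m2 (algebraMap R C x)) = (lf c1 s).hom (r3 x)
      rw [hm2]
      refine ext_R i j hij.2 ((s.hom.comp jB).comp r2) ((lf c1 s).hom.comp r3) ?_ ?_ x
      · intro a
        change s.hom (jB (r2 (i a))) = (lf c1 s).hom (r3 (i a))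
        rw [r3i, hlf, r2i, map_one, mul_one, hc1i, AlgHom.commutes, AlgHom.commutes]
        rfl
      · intro b
        change s.hom (jB (r2 (j b))) = (lf c1 s).hom (r3 (j b))
        rw [r3j, hlf, r2j, map_one, one_mul]
        rfl) (sp_ext fun c => by
          change c1.hom (m1 c) = c2.hom (m2 c)
          rw [hc1', hc2']) τ τ' (hp τ hτ) (hp τ' hτ'') (sp_ext fun c => by
          change τ.hom (m c) = c1.hom (m1 c)
          rw [hτ', hc1']) γ
    intro c
    have h1 : (Sp.hom (comapC m τ')) c = (Sp.hom (comapC m1 c1)) c := by rw [key]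
    change τ'.hom (m c) = c1.hom (m1 c) at h1
    rw [h1, hc1']
  have hbij : Function.Bijective (algebraMap (C1 ⊗[ℂ] C2) T) := by
    refine h7 (C1 ⊗[ℂ] C2) T (lf c1 c2) τ hτ ?_
    intro τ' hτ''
    refine huT τ' τ (fun s => ?_) (fun c => ?_)
    · rw [hτ'', hτ]
    · rw [hτ1 τ' hτ'' c, hτ']
  let E : C1 ⊗[ℂ] C2 ≃ₐ[ℂ] T := AlgEquiv.ofBijective q hbij
  refine ⟨C1, C2, inferInstance, inferInstance, inferInstance, inferInstance, inferInstance,
    inferInstance, inferInstance, inferInstance, inferInstance, inferInstance, inferInstance,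
    inferInstance, inferInstance, inferInstance, c1, c2, (E.symm : T →ₐ[ℂ] C1 ⊗[ℂ] C2).comp m,
    ?_, ?_, ?_⟩
  · intro a
    change E.symm (m (algebraMap R C (i a))) = _
    rw [AlgEquiv.symm_apply_eq, hm, r3i]
    rfl
  · intro b
    change E.symm (m (algebraMap R C (j b))) = _
    rw [AlgEquiv.symm_apply_eq, hm, r3j]
    rfl
  · intro c
    change (lf c1 c2).hom (E.symm (m c)) = ψ₀.hom c
    rw [← hτ, ← hτ']
    congr 1
    exact E.apply_symm_apply (m c)

end Pool.Agent.Q40.GU_P10
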