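import Pool.Agent.Q37.GU.Stm

set_option autoImplicit false

open CategoryTheory CategoryTheory.Limits AlgebraicGeometry Topology
open scoped TensorProduct

namespace Pool.Agent.Q40.GU_Q1

open Pool.Agent.Q37.GU Pool.Agent.W481

theorem chart (V : Over SpecQb) (v : V.left) :
    ∃ (A0 : Type) (_ : CommRing A0) (_ : Algebra Qb A0) (i0 : Spec (.of A0) ⟶ V.left)
      (_ : IsOpenImmersion i0), Spec.map (CommRingCat.ofHom (algebraMap Qb A0)) = i0 ≫ V.hom ∧
      v ∈ i0.opensRange := by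
  obtain ⟨U, hU, hvU, -⟩ := V.left.isBasis_affineOpens.exists_subset_of_mem_open
    (Set.mem_univ v) isOpen_univ
  obtain ⟨U, hU, rfl⟩ := hU
  have hU' : IsAffineOpen U := hU
  let g : CommRingCat.of Qb ⟶ Γ(V.left, U) := Spec.preimage (hU'.fromSpec ≫ V.hom)
  have hg : Spec.map g = hU'.fromSpec ≫ V.hom := Spec.map_preimage _
  let alg : Algebra Qb Γ(V.left, U) := g.hom.toAlgebra
  refine ⟨Γ(V.left, U), inferInstance, alg, hU'.fromSpec, hU'.isOpenImmersion_fromSpec, hg, ?_⟩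
  rw [hU'.opensRange_fromSpec]
  exact hvU

theorem smooth_algebra {A : Type} [CommRing A] [Algebra Qb A]
    (h : Smooth (Spec.map (CommRingCat.ofHom (algebraMap Qb A)))) : Algebra.Smooth Qb A := by
  have h1 := (HasRingHomProperty.Spec_iff (P := @Smooth)).1 h
  rw [CommRingCat.hom_ofHom] at h1
  exact (RingHom.smooth_algebraMap).1 h1

/-- JOB Q1 -/
theorem q1 : S_Q1 := by
  intro V hV X e x
  let y : Pt (baseC V) := x.push e.hom
  obtain ⟨ym, hym⟩ : ∃ ym : SpecC ⟶ pullback V.hom toSpecQb, ym = y.mor := ⟨_, rfl⟩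
  obtain ⟨yV, hyV⟩ : ∃ yV : SpecC ⟶ V.left, yV = ym ≫ pullback.fst V.hom toSpecQb := ⟨_, rfl⟩
  let v : V.left := yV (default : PrimeSpectrum ℂ)
  obtain ⟨A0, _, _, i0, hi0, h, hv⟩ := chart V v
  have hs : Smooth (Spec.map (CommRingCat.ofHom (algebraMap Qb A0))) := by
    rw [h]
    infer_instance
  have hsm : Algebra.Smooth Qb A0 := smooth_algebra hs
  have hr : Set.range yV ⊆ Set.range i0 := by
    rintro _ ⟨z, rfl⟩
    have : z = (default : PrimeSpectrum ℂ) := Subsingleton.elim (α := PrimeSpectrum ℂ) _ _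
    rw [this]
    exact hv
  let w : SpecC ⟶ Spec (.of A0) := IsOpenImmersion.lift i0 yV hr
  have hw : w ≫ i0 = yV := IsOpenImmersion.lift_fac _ _ _
  have hyb : ym ≫ pullback.snd V.hom toSpecQb = 𝟙 SpecC := by
    rw [hym]
    exact pt_mor_hom y
  let b : Spec (.of A0) ⟶ SpecQb := Spec.map (CommRingCat.ofHom (algebraMap Qb A0))
  let m1 : pullback toSpecQb b ⟶ pullback toSpecQb V.hom :=
    pullback.map toSpecQb b toSpecQb V.hom (𝟙 _) i0 (𝟙 _)
      (by rw [Category.comp_id, Category.id_comp]) (by rw [Category.comp_id]; exact h)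
  let m : Spec (.of (ℂ ⊗[Qb] A0)) ⟶ pullback V.hom toSpecQb :=
    (pullbackSpecIso Qb ℂ A0).inv ≫ m1 ≫ (pullbackSymmetry _ _).hom
  have hmo : IsOpenImmersion m := inferInstance
  have hm1 : m ≫ pullback.snd V.hom toSpecQb =
      Spec.map (CommRingCat.ofHom (algebraMap ℂ (ℂ ⊗[Qb] A0))) := by
    simp only [m, m1, Category.assoc, pullbackSymmetry_hom_comp_snd]
    rw [pullback.lift_fst, Category.comp_id, pullbackSpecIso_inv_fst']
  have hcond : 𝟙 SpecC ≫ toSpecQb = w ≫ b := by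
    change _ = w ≫ Spec.map (CommRingCat.ofHom (algebraMap Qb A0))
    rw [h, ← Category.assoc, hw, Category.id_comp, hyV, Category.assoc, pullback.condition,
      ← Category.assoc, hyb, Category.id_comp]
  let s : SpecC ⟶ Spec (.of (ℂ ⊗[Qb] A0)) :=
    pullback.lift (𝟙 SpecC) w hcond ≫ (pullbackSpecIso Qb ℂ A0).hom
  have hsm' : s ≫ m = ym := by
    simp only [s, m, m1, Category.assoc, Iso.hom_inv_id_assoc]
    apply pullback.hom_ext
    · simp only [Category.assoc, pullbackSymmetry_hom_comp_fst]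
      rw [pullback.lift_snd, pullback.lift_snd_assoc, hw, hyV]
    · simp only [Category.assoc, pullbackSymmetry_hom_comp_snd]
      rw [pullback.lift_fst, pullback.lift_fst_assoc, hyb, Category.comp_id]
  let i1 : specOver (ℂ ⊗[Qb] A0) ⟶ baseC V := Over.homMk m hm1
  let z : Pt (specOver (ℂ ⊗[Qb] A0)) := Pt.mk' (X := specOver (ℂ ⊗[Qb] A0)) s (by
    change s ≫ Spec.map (CommRingCat.ofHom (algebraMap ℂ (ℂ ⊗[Qb] A0))) = 𝟙 SpecC
    rw [← hm1, ← Category.assoc, hsm', hyb])
  obtain ⟨φ, hφ⟩ := isHomeomorph_spPt.surjective z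
  refine ⟨A0, inferInstance, inferInstance, hsm, i1 ≫ e.inv, ?_, φ, ?_⟩
  · rw [Over.comp_left]
    have h1 : IsOpenImmersion i1.left := hmo
    have h2 : IsIso e.inv.left := inferInstance
    infer_instance
  · rw [hφ]
    apply Pt.ext_mor
    rw [mor_push, Over.comp_left]
    change s ≫ m ≫ e.inv.left = x.mor
    rw [← Category.assoc, hsm', hym]
    change (x.mor ≫ e.hom.left) ≫ e.inv.left = x.mor
    rw [Category.assoc, ← Over.comp_left, e.hom_inv_id, Over.id_left, Category.comp_id]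

end Pool.Agent.Q40.GU_Q1
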