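import Mathlib
import Pool.Agent.Q82.BB.Stm

/-!
# Job BB-MAIN (project BB of helper82)
-/

set_option autoImplicit false

open MeasureTheory Filter Topology Set

namespace Pool.Agent.Q82.BB

/-- `x`-derivatives -/
private lemma main_iterX (T : ℝ) (W : ℕ → ℝ → ℝ → ℂ)
    (hx : ∀ i j : ℕ, ∀ x : ℝ, ∀ τ ∈ Ioo 0 T,
      HasDerivAt (fun x => UU W i j x τ) (UU W (i + 1) j x τ) x)
    (i j k : ℕ) (τ : ℝ) (hτ : τ ∈ Ioo 0 T) :
    iteratedDeriv i (fun x => UU W k j x τ) = fun x => UU W (k + i) j x τ := by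
  induction i with
  | zero => simp [iteratedDeriv_zero]
  | succ i ih =>
    rw [iteratedDeriv_succ, ih]
    funext x
    exact (hx (k + i) j x τ hτ).deriv

/-- `t`-derivatives -/
private lemma main_iterT (T T1 : ℝ) (hT1 : T1 = T + 1) (W : ℕ → ℝ → ℝ → ℂ)
    (ht : ∀ i j : ℕ, ∀ x : ℝ, ∀ τ ∈ Ioo 0 T1,
      HasDerivAt (fun τ => UU W i j x τ) (UU W i (j + 1) x τ) τ)
    (j k : ℕ) (x : ℝ) (t : ℝ) (h : t ∈ Ioo (-1) T) :
    iteratedDeriv j (fun t => UU W k 0 x (T - t)) t = (-1) ^ j * UU W k j x (T - t) := by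
  induction j generalizing t with
  | zero => simp [iteratedDeriv_zero]
  | succ j ih =>
    rw [iteratedDeriv_succ]
    have he : iteratedDeriv j (fun t => UU W k 0 x (T - t)) =ᶠ[𝓝 t]
        fun t => (-1) ^ j * UU W k j x (T - t) := by
      filter_upwards [isOpen_Ioo.mem_nhds h] with s hs using ih s hs
    rw [he.deriv_eq]
    have hmem : T - t ∈ Ioo 0 T1 := by
      constructor
      · linarith [h.2]
      · rw [hT1]; linarith [h.1]
    have h1 : HasDerivAt (fun t : ℝ => T - t) (-1) t := by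
      simpa using (hasDerivAt_id t).const_sub T
    have h2 := (ht k j x (T - t) hmem).scomp t h1
    have h3 : HasDerivAt (fun t => (-1 : ℝ) ^ j * UU W k j x (T - t))
        ((-1) ^ j * ((-1 : ℝ) • UU W k (j + 1) x (T - t))) t := h2.const_mul _
    rw [h3.deriv, smul_eq_mul, pow_succ]
    ring

theorem main1 (h1 : S_SH) (h2 : S_KB) (h3 : S_FIX) (h4 : S_ODE) (h5 : S_GD) (h6 : S_TS)
    (h7 : S_JS) (h8 : S_PDE) (h9 : S_DEC) (h10 : S_LB) (h11 : S_UNB) : S_MAIN := by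
  intro T p hT
  obtain ⟨sh, ch, hsh⟩ := h1
  obtain ⟨T1, hT1⟩ : ∃ T1 : ℝ, T1 = T + 1 := ⟨_, rfl⟩
  have hT1p : 0 < T1 := by rw [hT1]; linarith
  have hK := h2 sh ch hsh T1 hT1p
  obtain ⟨ε, w, Cs, hε, hA, hfix, hherm, C0, hC0⟩ := h3 T1 p (kap sh) hT1p hK
  obtain ⟨w1, hw1c, ⟨C1, hC1⟩, hd0, hd1⟩ := h4 sh ch hsh T1 p ε w Cs hT1p hA hfix
  have hG0 : Good T1 w := h5.1 T1 p w Cs hT1p hA
  have hG1 : Good T1 w1 := h5.2 T1 p w1 C1 hT1p hw1c hC1
  obtain ⟨W, hW0, hW1, hTow⟩ := h6 T1 w w1 hT1p hG0 hG1 hd0 hd1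
  obtain ⟨hX, hTt, hsm⟩ := h7 T1 W hT1p hTow.1 hTow.2.1
  have hmem : ∀ t ∈ Ioo (-1) T, T - t ∈ Ioo 0 T1 := by
    intro t h
    constructor
    · linarith [h.2]
    · rw [hT1]; linarith [h.1]
  have hex : ∀ ξ τ : ℝ, 0 ≤ τ → ex ξ τ ≤ 1 := by
    intro ξ τ hτ
    unfold ex
    rw [Real.exp_le_one_iff]
    have := mul_nonneg hτ (abs_nonneg ξ)
    linarith
  have hex0 : ∀ ξ τ : ℝ, 0 ≤ ex ξ τ := fun ξ τ => (Real.exp_pos _).le
  have hpos : ∀ ξ : ℝ, 0 < 1 + |ξ| := fun ξ => by positivity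
  refine ⟨fun x t => UU W 0 0 x (T - t), ?_, ?_, ?_, ?_, ?_⟩
  · intro n
    have hmap : ContDiffOn ℝ n (fun q : ℝ × ℝ => ((q.1, T - q.2) : ℝ × ℝ))
        (univ ×ˢ Ioo (-1) T) := by
      apply ContDiff.contDiffOn
      fun_prop
    exact (hsm 0 0 n).comp hmap (fun q hq => ⟨mem_univ _, hmem q.2 hq.2⟩)
  · intro x t ht
    have hτ := hmem t ht
    have e1 := main_iterT T T1 hT1 W hTt 2 0 x t ht
    have e2 := congrFun (main_iterX T1 W hX 2 0 0 (T - t) hτ) x
    have e4 := congrFun (main_iterX T1 W hX 4 0 0 (T - t) hτ) x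
    have esq : iteratedDeriv 2 (fun x => UU W 0 0 x (T - t) ^ 2) x =
        2 * UU W 0 0 x (T - t) * UU W 2 0 x (T - t) + 2 * UU W 1 0 x (T - t) ^ 2 := by
      rw [iteratedDeriv_succ, iteratedDeriv_one]
      have hd : deriv (fun x => UU W 0 0 x (T - t) ^ 2) =
          fun x => 2 * UU W 0 0 x (T - t) * UU W 1 0 x (T - t) := by
        funext y
        have := ((hX 0 0 y (T - t) hτ).pow 2).deriv
        simp only [zero_add, Nat.add_one_sub_one, pow_one, Nat.cast_ofNat] at this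
        exact this
      rw [hd]
      have hy := ((hX 0 0 x (T - t) hτ).const_mul 2).mul (hX 1 0 x (T - t) hτ)
      have := hy.deriv
      simp only [zero_add, Nat.reduceAdd] at this
      refine this.trans ?_
      ring
    simp only [zero_add] at e2 e4
    rw [e1, e2, e4, esq]
    have hp := h8 T1 W hT1p hTow (fun ξ τ hτ' => by
      rw [hW0]; exact hherm ξ τ ⟨hτ'.1.le, hτ'.2.le⟩) x (T - t) hτ
    rw [hp]
    ring
  · intro N τ hτ
    have hD := fun i : ℕ => h9 T1 p w Cs hT1p hA (T - τ) (by linarith) i N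
    choose D hD' using hD
    refine ⟨∑ i ∈ Finset.range (N + 1), |D i|, ?_⟩
    intro x t ht i hi
    have ht' : t ∈ Ioo (-1) T := ⟨by linarith [ht.1], by linarith [ht.2]⟩
    have e2 := congrFun (main_iterX T1 W hX i 0 0 (T - t) (hmem t ht')) x
    simp only [zero_add] at e2
    rw [e2]
    have hb := hD' i x (T - t) ⟨by linarith [ht.2], by rw [hT1]; linarith [ht.1]⟩
    have hUU : UU W i 0 x (T - t) = (∫ ξ : ℝ, (Complex.I * ξ) ^ i * w ξ (T - t) *
        Complex.exp (Complex.I * x * ξ)).re := by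
      unfold UU
      rw [hW0]
    rw [hUU]
    refine hb.trans ((le_abs_self _).trans ?_)
    exact Finset.single_le_sum (f := fun i => |D i|) (fun _ _ => abs_nonneg _)
      (Finset.mem_range.2 (Nat.lt_succ_of_le hi))
  · intro i j hij
    obtain ⟨C, hC⟩ := h10 T1 p W hT1p hTow
      ⟨Cs 0, fun ξ τ hτ => by
        have h := hA.2.2.2 0 ξ τ ⟨hτ.1.le, hτ.2.le⟩
        simp only [iteratedDeriv_zero] at h
        rw [hW0]
        have hp : 0 < (1 + |ξ|) ^ (p + 1) := pow_pos (hpos ξ) _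
        calc ‖w ξ τ‖ * (1 + |ξ|) ^ (p + 1)
            ≤ (Cs 0 * (ex ξ τ / (1 + |ξ|) ^ (p + 1))) * (1 + |ξ|) ^ (p + 1) :=
              mul_le_mul_of_nonneg_right h hp.le
          _ = Cs 0 * ex ξ τ := by field_simp
          _ ≤ Cs 0 * 1 := mul_le_mul_of_nonneg_left (hex ξ τ hτ.1.le) (hA.2.2.1 0)
          _ = Cs 0 := mul_one _⟩
      ⟨|C1|, fun ξ τ hτ => by
        have h := hC1 ξ τ ⟨hτ.1.le, hτ.2.le⟩
        rw [hW1]
        have hp : 0 < (1 + |ξ|) ^ (p + 1) := pow_pos (hpos ξ) _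
        have h2p : 0 < (1 + |ξ|) ^ 2 := pow_pos (hpos ξ) _
        calc ‖w1 ξ τ‖ * (1 + |ξ|) ^ (p + 1)
            ≤ (C1 * (1 + |ξ|) ^ 2 * (ex ξ τ / (1 + |ξ|) ^ (p + 1))) * (1 + |ξ|) ^ (p + 1) :=
              mul_le_mul_of_nonneg_right h hp.le
          _ = C1 * ((1 + |ξ|) ^ 2 * ex ξ τ) := by field_simp
          _ ≤ |C1| * ((1 + |ξ|) ^ 2 * ex ξ τ) :=
              mul_le_mul_of_nonneg_right (le_abs_self _) (mul_nonneg h2p.le (hex0 ξ τ))
          _ ≤ |C1| * ((1 + |ξ|) ^ 2 * 1) :=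
              mul_le_mul_of_nonneg_left
                (mul_le_mul_of_nonneg_left (hex ξ τ hτ.1.le) h2p.le) (abs_nonneg _)
          _ = |C1| * (1 + |ξ|) ^ 2 := by rw [mul_one]⟩
      i j (by omega)
    refine ⟨C, fun x t ht => ?_⟩
    have ht' : t ∈ Ioo (-1) T := ⟨by linarith [ht.1], ht.2⟩
    have e : (fun x => iteratedDeriv j (fun t => UU W 0 0 x (T - t)) t) =
        fun x => (-1) ^ j * UU W 0 j x (T - t) := by
      funext y
      exact main_iterT T T1 hT1 W hTt j 0 y t ht'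
    have e2 : iteratedDeriv i (fun x => (-1 : ℝ) ^ j * UU W 0 j x (T - t)) =
        fun x => (-1) ^ j * UU W i j x (T - t) := by
      have : ∀ i, iteratedDeriv i (fun x => (-1 : ℝ) ^ j * UU W 0 j x (T - t)) =
        fun x => (-1) ^ j * UU W i j x (T - t) := by
        intro i
        induction i with
        | zero => simp [iteratedDeriv_zero]
        | succ i ih =>
          rw [iteratedDeriv_succ, ih]
          funext y
          exact ((hX i j y (T - t) (hmem t ht')).const_mul _).deriv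
      exact this i
    rw [e, e2]
    have := hC x (T - t) (hmem t ht')
    rw [abs_mul, abs_pow, abs_neg, abs_one, one_pow, one_mul]
    exact this
  · intro x hx
    have hcont : ContinuousOn (fun q : ℝ × ℝ => w q.1 q.2) (univ ×ˢ Icc 0 T1) := by
      have := hA.2.1 0
      simpa only [iteratedDeriv_zero] using this
    have hU := h11 T1 p ε w (Nl T1 (kap sh) w) hT1p hε hcont
      (fun ξ τ hτ => hfix ξ τ ⟨hτ.1.le, hτ.2.le⟩)
      ⟨C0, fun ξ τ hτ => hC0 ξ τ ⟨hτ.1.le, hτ.2.le⟩⟩ x hx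
    have htend : Tendsto (fun t : ℝ => T - t) (𝓝[<] T) (𝓝[>] 0) := by
      apply tendsto_nhdsWithin_iff.2
      constructor
      · have : Tendsto (fun t : ℝ => T - t) (𝓝 T) (𝓝 (T - T)) :=
          (continuous_const.sub continuous_id).tendsto T
        rw [sub_self] at this
        exact this.mono_left nhdsWithin_le_nhds
      · filter_upwards [self_mem_nhdsWithin] with t ht
        have : t < T := ht
        exact sub_pos.2 this
    refine (hU.comp htend).congr' ?_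
    have hev : ∀ᶠ t in 𝓝[<] T, t ∈ Ioo (-1) T :=
      Ioo_mem_nhdsLT (by linarith)
    filter_upwards [hev] with t ht
    have e2 := congrFun (main_iterX T1 W hX p 0 0 (T - t) (hmem t ht)) x
    simp only [zero_add] at e2
    rw [e2]
    simp only [Function.comp, UU]
    rw [hW0]

end Pool.Agent.Q82.BB
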