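import Pool.Agent.Q61.MH.Stm

/-!
# Project MH (helper61), job UNI
-/

set_option autoImplicit false

open Real Filter Topology

noncomputable section

namespace Pool.Agent.Q40.MH

open Pool.Agent.Q61.MH

lemma Dd_pos (k : ℕ) {r : ℝ} (hk : 1 ≤ k) (hr : 0 < r) : 0 < Dd k r := by
  have hk1 : (1 : ℝ) ≤ k := by exact_mod_cast hk
  have h := Real.rpow_lt_rpow (x := 2 * (k : ℝ) - 1) (y := 2 * (k : ℝ) + 1) (by linarith) (by linarith) hr
  unfold Dd
  linarith

lemma P_one : P 1 1 = 0 := by
  unfold P S
  simp only [Finset.sum_range_succ, Finset.sum_range_zero, Real.rpow_one]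
  norm_num

theorem uni (h1 : S_cross) (h2 : S_rec) (h3 : S_qmono) : S_uni := by
  intro k hk r hr hP
  have hr0 : 0 < r := by linarith
  have hQ : 0 < Qk k r := by
    by_contra hQ
    have hQj : ∀ n : ℕ, ∀ j : ℕ, 1 ≤ j → j + n = k → Qk j r ≤ 0 := by
      intro n
      induction n with
      | zero =>
        intro j _ hj
        have : j = k := by omega
        rw [this]
        exact not_lt.1 hQ
      | succ n ih =>
        intro j hj1 hj
        by_contra hjQ
        exact absurd (h3 j hj1 r hr (not_le.1 hjQ)) (not_lt.2 (ih (j + 1) (by omega) (by omega)))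
    have hPj : ∀ j : ℕ, 1 ≤ j → j ≤ k → 0 < P j r := by
      intro j hj
      induction j, hj using Nat.le_induction with
      | base =>
        intro _
        exact h1 1 le_rfl 1 r one_pos hr P_one.ge
      | succ j hj ih =>
        intro hjk
        have e := h2 j hj r
        have hD1 := Dd_pos j hj hr0
        have hD2 := Dd_pos (j + 1) (by omega) hr0
        have hPj := ih (by omega)
        have hQ1 := hQj (k - j) j hj (by omega)
        have hp : (0 : ℝ) < (2 * (j : ℝ) + 1) ^ r := Real.rpow_pos_of_pos (by positivity) _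
        have h4 : 0 < Dd j r * P (j + 1) r := by
          rw [e]
          have := mul_pos hD2 hPj
          have h5 : (2 * (j : ℝ) + 1) ^ r * Qk j r ≤ 0 := mul_nonpos_of_nonneg_of_nonpos hp.le hQ1
          linarith
        exact (pos_iff_pos_of_mul_pos h4).1 hD1
    exact absurd (hPj k hk le_rfl) (not_lt.2 hP)
  refine ⟨hQ, ?_⟩
  have e := h2 k hk r
  have hD1 := Dd_pos k hk hr0
  have hD2 := Dd_pos (k + 1) (by omega) hr0
  have hp : (0 : ℝ) < (2 * (k : ℝ) + 1) ^ r := Real.rpow_pos_of_pos (by positivity) _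
  have h4 : Dd k r * P (k + 1) r < 0 := by
    rw [e]
    have h5 : Dd (k + 1) r * P k r ≤ 0 := mul_nonpos_of_nonneg_of_nonpos hD2.le hP
    have := mul_pos hp hQ
    linarith
  by_contra h6
  exact absurd (mul_nonneg hD1.le (not_lt.1 h6)) (not_le.2 h4)

end Pool.Agent.Q40.MH
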