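import Mathlib
import Pool.Agent.Q82.QD.Stm

/-!
# Project QD (helper82): convergence of the scaled solutions (helper40)
-/

set_option autoImplicit false

open MeasureTheory Filter Topology Real InnerProductSpace Laplacian Set
open Pool.Agent.Q82.QC (E Om pp lg bd pot mol Ctl HolderConv S_MASS S_POT0 S_POT3 S_POTH S_POTL S_MOL
  S_MOLI)

namespace Pool.Agent.Q82.QD

lemma conv2_sub {K : Set E} (hK : K ⊆ Metric.ball 0 (3 / 2) \ {x0}) : K ⊆ Om := by
  intro x hx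
  have h := (hK hx).1
  rw [mem_ball_zero_iff] at h
  have h1 : |x 0| ≤ ‖x‖ := by
    have := EuclideanSpace.norm_eq x
    have h2 := PiLp.norm_apply_le x 0
    rwa [Real.norm_eq_abs] at h2
  have h3 : |x 0| < 2 := by linarith
  rw [abs_lt] at h3
  exact h3

lemma conv2_ev (a M η : ℝ) (ha : 0 < a) (hM : 0 < M) (hη : 0 < η) (x : ℝ)
    (hx : max 1 (4 * (2 * M + 1) / (a * η)) ≤ x) :
    (bet a x)⁻¹ * (M * (1 + Real.log x) + 1) ≤ η := by
  have h1 : 1 ≤ x := (le_max_left _ _).trans hx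
  have h2 : 4 * (2 * M + 1) / (a * η) ≤ x := (le_max_right _ _).trans hx
  have hx0 : 0 < x := by linarith
  rw [div_le_iff₀ (by positivity)] at h2
  have hb : 0 < bet a x := by unfold bet; positivity
  rw [inv_mul_le_iff₀ hb]
  have hlog : Real.log x ≤ x := (Real.log_le_sub_one_of_pos hx0).trans (by linarith)
  have h3 : M * (1 + Real.log x) + 1 ≤ (2 * M + 1) * x := by nlinarith
  have h4 : x ^ 2 ≤ (x ^ 5) ^ 2 := by
    rw [← pow_mul]
    exact pow_le_pow_right₀ h1 (by norm_num)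
  have h5 : (2 * M + 1) * x ≤ a * x ^ 2 / 4 * η := by nlinarith
  have h6 : a * x ^ 2 / 4 * η ≤ bet a x * η := by
    unfold bet
    have := mul_le_mul_of_nonneg_left h4 (by positivity : 0 ≤ a * η / 4)
    linarith
  linarith

theorem conv2 (h1 : S_WL2) (h2 : S_POTL) (h3 : S_CVW2) (h4 : S_POT0) (h5 : S_POT3) (h6 : S_POTH)
    (_h7 : S_PP) : S_CONV2 := by
  intro F a C0 hDat N e h hN0 hN he hC' K hK hKU α hα0 hα1 η hη
  obtain ⟨C, hC, hctl⟩ := hC'
  have ha : 0 < a := hDat.2.1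
  have hKOm : K ⊆ Om := conv2_sub hKU
  obtain ⟨M, hM, HM⟩ := h3 F a C0 hDat K hK (fun hx => (hKU hx).2 rfl) α hα0 hα1
  obtain ⟨δ0, p0, P0⟩ := h4 C hC 1 one_pos
  obtain ⟨δ3, p3, P3⟩ := h5 C hC 1 one_pos
  obtain ⟨δh, ph, PH⟩ := h6 α hα0 hα1 C hC 1 one_pos
  filter_upwards [hctl δ0 p0, hctl δ3 p3, hctl δh ph, hN.eventually HM,
    hN.eventually_ge_atTop (max 1 (4 * (2 * M + 1) / (a * η)))]
    with k c0 c3 ch HMk hNk
  have key := conv2_ev a M η ha hM hη (N k) hNk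
  have hbp : 0 < bet a (N k) := by
    have := hN0 k
    unfold bet
    positivity
  generalize hbk : bet a (N k) = bk at *
  have hW : ∀ x ∈ K, ∀ m : ℕ, ContDiffAt ℝ m (W F a (N k)) x := fun x hx m =>
    ((h1 F hDat.1 a (N k) (hN0 k)).1 m).contDiffAt
  have hP : ∀ x ∈ K, ∀ m : ℕ, ContDiffAt ℝ m (pot (e k) (h k)) x := fun x hx m =>
    (h2 (e k) (h k) (he k).1 c0.1 c0.2.1 x (hKOm hx)).1 m
  have e1 : (fun x => (W F a (N k) x + pot (e k) (h k) x) / bk) =
      bk⁻¹ • (W F a (N k) + pot (e k) (h k)) := by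
    funext x
    simp only [Pi.smul_apply, Pi.add_apply, smul_eq_mul]
    rw [div_eq_inv_mul]
  have e2 : (fun x => -PP x) = -PP := rfl
  have form : ∀ x ∈ K, ∀ m : ℕ,
      iteratedFDeriv ℝ m (fun x => (W F a (N k) x + pot (e k) (h k) x) / bk) x -
      iteratedFDeriv ℝ m (fun x => -PP x) x = bk⁻¹ • ((iteratedFDeriv ℝ m (W F a (N k)) x +
        bk • iteratedFDeriv ℝ m PP x) + iteratedFDeriv ℝ m (pot (e k) (h k)) x) := by
    intro x hx m
    have hs : ContDiffAt ℝ m (W F a (N k) + pot (e k) (h k)) x := (hW x hx m).add (hP x hx m)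
    rw [e1, e2, iteratedFDeriv_const_smul_apply hs, iteratedFDeriv_add_apply (hW x hx m) (hP x hx m),
      iteratedFDeriv_neg_apply]
    rw [smul_add, smul_add, smul_add, smul_smul, inv_mul_cancel₀ hbp.ne', one_smul]
    abel
  refine ⟨fun m hm x hx => ?_, fun x hx y hy => ?_⟩
  · rw [form x hx m, norm_smul, Real.norm_eq_abs, abs_of_pos (inv_pos.2 hbp)]
    refine le_trans (mul_le_mul_of_nonneg_left ((norm_add_le _ _).trans (add_le_add
      (HMk.1 m hm x hx) ?_)) (inv_pos.2 hbp).le) key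
    rcases Nat.eq_zero_or_pos m with rfl | hm0
    · rw [norm_iteratedFDeriv_zero, Real.norm_eq_abs]
      exact P0 (e k) (h k) (he k).1 (he k).2 c0 x (hKOm hx)
    · exact P3 (e k) (h k) (he k).1 (he k).2 c3 m hm0 hm x (hKOm hx)
  · rw [form x hx 3, form y hy 3, ← smul_sub, norm_smul, Real.norm_eq_abs,
      abs_of_pos (inv_pos.2 hbp)]
    have a1 := HMk.2 x hx y hy
    have a2 := PH (e k) (h k) (he k).1 (he k).2 ch x (hKOm hx) y (hKOm hy)
    have hD : 0 ≤ ‖x - y‖ ^ α := by positivity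
    have a3 : ‖(iteratedFDeriv ℝ 3 (W F a (N k)) x + bk • iteratedFDeriv ℝ 3 PP x +
        iteratedFDeriv ℝ 3 (pot (e k) (h k)) x) - (iteratedFDeriv ℝ 3 (W F a (N k)) y +
        bk • iteratedFDeriv ℝ 3 PP y + iteratedFDeriv ℝ 3 (pot (e k) (h k)) y)‖ ≤
        (M * (1 + Real.log (N k)) + 1) * ‖x - y‖ ^ α := by
      rw [add_sub_add_comm, add_mul]
      exact (norm_add_le _ _).trans (add_le_add a1 a2)
    calc bk⁻¹ * _ ≤ bk⁻¹ * ((M * (1 + Real.log (N k)) + 1) * ‖x - y‖ ^ α) :=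
          mul_le_mul_of_nonneg_left a3 (inv_pos.2 hbp).le
      _ = bk⁻¹ * (M * (1 + Real.log (N k)) + 1) * ‖x - y‖ ^ α := by ring
      _ ≤ η * ‖x - y‖ ^ α := mul_le_mul_of_nonneg_right key hD

end Pool.Agent.Q82.QD
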